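import Pool.Agent.T6.H20.TS.Stable
import Pool.Agent.W602.GT.KStm
import Pool.Agent.W602.GT.Cx

/-!
The special sets of closed subvarieties of varieties given by few monomials with large exponents
which contain no two-dimensional orbits of tori.
-/

set_option autoImplicit false

open FF Pool.Agent.W603.LV MvPolynomial Pool.Agent.W602.GT

namespace Pool.Agent.T6.H20.TS

variable {k : Type} [Field k] {n : ℕ} {κ : Type}

/-- The Zariski closure in `X = {Φ = 0, x_j ≠ 0 for j in U}` of the union of the one-dimensional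
orbits of diagonal one-parameter groups which are contained in `X`. -/
def SpTor (U : Set (Fin (n + 1))) (Φ : κ → MvPolynomial (Fin (n + 1)) k) :
    Set (Fin (n + 1) → k) :=
  {x | x ∈ ConeU U Φ ∧ ∀ G : MvPolynomial (Fin (n + 1)) k, IsForm G →
    (∀ x' b, DiagCurve U Φ x' b → val x' G = 0) → val x G = 0}

theorem acts_of_hom {U : Set (Fin (n + 1))} {K : Type} [Field K] [Algebra k K]
    {y : Fin (n + 1) → K} {b : Fin (n + 1) → ℤ}
    (hH : ∀ G : MvPolynomial (Fin (n + 1)) k, IsForm G → val y G = 0 → ∀ v, val y (wc b v G) = 0) :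
    Acts U k y b := by
  rintro t ht x ⟨⟨hx0, hx⟩, hxU⟩
  refine ⟨⟨?_, fun G hG h0 => ?_⟩, fun j hj => mul_ne_zero (zpow_ne_zero _ ht) (hxU j hj)⟩
  · obtain ⟨i, hi⟩ := Function.ne_iff.1 hx0
    intro h0
    exact mul_ne_zero (zpow_ne_zero _ ht) hi (congrFun h0 i)
  · exact val_orbit (L := k) x b ht G fun v => hx _ (wc_form hG b v) (hH G hG h0 v)

variable [CharZero k] [IsAlgClosed k]

theorem hom_of_acts {U : Set (Fin (n + 1))} {K : Type} [Field K] [Algebra k K]
    {y : Fin (n + 1) → K} {b : Fin (n + 1) → ℤ} (hy : y ≠ 0) (hyU : ∀ j ∈ U, y j ≠ 0)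
    (h : Acts U k y b) (G : MvPolynomial (Fin (n + 1)) k) (hG : IsForm G) (h0 : val y G = 0)
    (v : ℤ) : val y (wc b v G) = 0 := by
  have hinf : Infinite k := inferInstance
  by_contra hne
  obtain ⟨x, hxy, hx1, hx⟩ := special_point y hne
  obtain ⟨i, hi⟩ := Function.ne_iff.1 hy
  apply hx1
  refine wc_of_orbit (fun t ht => ?_) v
  have hxV : x ∈ PtsU U k y := ⟨⟨fun h1 => (hxy i).2 hi (congrFun h1 i), fun H _ hH => hx H hH⟩,
    fun j hj => (hxy j).2 (hyU j hj)⟩
  exact (h t ht x hxV).1.2 G hG h0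

/-- **Criterion.** The closed subvarieties of log general type are those on which the diagonal
one-parameter groups act trivially if they act. -/
theorem gt_iff {ι : Type} {U : Set (Fin (n + 1))}
    {F : ι → MvPolynomial (Fin (n + 1)) k} {s N : ℕ} (hF : ∀ e, IsPowSparse U s N (F e))
    (hN : n * ((s + 1) * tn (s - 1)) ≤ N) (hnt : NoTorusSurface U F)
    {K : Type} [Field K] [Algebra k K] {w : ℕ} (hw : 0 < w) {y : Fin (n + 1) → K}
    (hy : SubVarU U F K w y) :
    LogGeneralType k K w (OffU U y) ↔ ∀ b : Fin (n + 1) → ℤ, Acts U k y b →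
      ∀ i i', y i ≠ 0 → y i' ≠ 0 → b i = b i' := by
  constructor
  · intro hgt b hb i i' hi hi'
    by_contra hne
    exact orb_not_gt hy.gen b hi hi' hne hy.unit (hom_of_acts hy.ne hy.unit hb) hgt
  · intro h
    by_contra hgt
    have hgen : Algebra.IsAlgebraic (coords k y) K := by
      rw [hy.gen]
      infer_instance
    obtain ⟨b, i, i', hi, hi', hne, hH⟩ := stable hF hN hnt hw hy.dim hy.ne hgen hy.mem hy.unit hgt
    exact hne (h b (acts_of_hom hH) i i' hi hi')

/-- a subvariety of the smaller variety is a subvariety of the larger one -/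
theorem subvar_of {ι : Type} {U : Set (Fin (n + 1))} {F : ι → MvPolynomial (Fin (n + 1)) k}
    {Φ : κ → MvPolynomial (Fin (n + 1)) k} (hsub : ConeU U Φ ⊆ ConeU U F)
    {K : Type} [Field K] [Algebra k K] {w : ℕ} {y : Fin (n + 1) → K}
    (hy : SubVarU U Φ K w y) : SubVarU U F K w y :=
  ⟨hy.ne, hy.unit, fun e => val_of_cone hy.ne hy.unit hy.mem fun x hx => (hsub hx).2.2 e, hy.gen,
    hy.dim⟩

/-- **Orbits.** A closed subvariety of `X` which is not of log general type is covered by orbits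
of a one-parameter group which are contained in `X`. -/
theorem orbits_through {ι : Type} {U : Set (Fin (n + 1))}
    {F : ι → MvPolynomial (Fin (n + 1)) k} {s N : ℕ} (hF : ∀ e, IsPowSparse U s N (F e))
    (hN : n * ((s + 1) * tn (s - 1)) ≤ N) (hnt : NoTorusSurface U F)
    {Φ : κ → MvPolynomial (Fin (n + 1)) k} (hΦ : ∀ e, IsForm (Φ e))
    (hsub : ConeU U Φ ⊆ ConeU U F)
    {K : Type} [Field K] [Algebra k K] {w : ℕ} (hw : 0 < w) {y : Fin (n + 1) → K}
    (hy : SubVarU U Φ K w y) (hgt : ¬ LogGeneralType k K w (OffU U y))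
    {G : MvPolynomial (Fin (n + 1)) k} (hG : val y G ≠ 0) :
    ∃ x b, DiagCurve U Φ x b ∧ val x G ≠ 0 := by
  have hgen : Algebra.IsAlgebraic (coords k y) K := by
    rw [hy.gen]
    infer_instance
  obtain ⟨b, i, i', hi, hi', hne, hH⟩ := stable hF hN hnt hw hy.dim hy.ne hgen
    (subvar_of hsub hy).mem hy.unit hgt
  obtain ⟨x, hxy, hx1, hx⟩ := special_point y hG
  exact ⟨x, b, diag_of_wc (fun j hj => (hxy j).2 (hy.unit j hj))
    (fun e v => hx _ (hH (Φ e) (hΦ e) (hy.mem e) v)) ⟨i, i', (hxy i).2 hi, (hxy i').2 hi', hne⟩,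
    hx1⟩

theorem tor_sub_alg {U : Set (Fin (n + 1))} {Φ : κ → MvPolynomial (Fin (n + 1)) k}
    (hΦ : ∀ e, IsForm (Φ e)) : SpTor U Φ ⊆ SpAlgU U Φ := by
  rintro x ⟨hx, h⟩
  refine ⟨hx, fun G hG hA => h G hG fun x' b hd => ?_⟩
  obtain ⟨K, _, _, y, hy, hgt, htr⟩ := orbit_subvar hΦ hd
  exact htr G hG (hA K 1 y le_rfl hy hgt)

theorem alg_eq {ι : Type} {U : Set (Fin (n + 1))}
    {F : ι → MvPolynomial (Fin (n + 1)) k} {s N : ℕ} (hF : ∀ e, IsPowSparse U s N (F e))
    (hN : n * ((s + 1) * tn (s - 1)) ≤ N) (hnt : NoTorusSurface U F)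
    {Φ : κ → MvPolynomial (Fin (n + 1)) k} (hΦ : ∀ e, IsForm (Φ e))
    (hsub : ConeU U Φ ⊆ ConeU U F) : SpAlgU U Φ = SpTor U Φ := by
  refine Set.Subset.antisymm ?_ (tor_sub_alg hΦ)
  rintro x ⟨hx, h⟩
  refine ⟨hx, fun G hG hT => h G hG ?_⟩
  intro K _ _ w y hw hy hgt
  by_contra hne
  obtain ⟨x', b, hd, hx'⟩ := orbits_through hF hN hnt hΦ hsub hw hy hgt hne
  exact hx' (hT x' b hd)

theorem off_empty {K : Type} [Field K] [Algebra k K] (y : Fin (n + 1) → K) :
    OffU ∅ y = fun _ : Place k K => False := by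
  funext P
  simp [OffU]

theorem log_iff {K : Type} [Field K] [Algebra k K] (w : ℕ) (y : Fin (n + 1) → K) :
    LogGeneralType k K w (OffU ∅ y) → GeneralType k K w := by
  intro h
  rw [off_empty] at h
  exact general_of_log h

theorem cone_empty (Φ : κ → MvPolynomial (Fin (n + 1)) k) : ConeU ∅ Φ = Cone Φ := by
  ext x
  simp [ConeU, Cone]

theorem subvar_empty {Φ : κ → MvPolynomial (Fin (n + 1)) k} {K : Type} [Field K] [Algebra k K]
    {w : ℕ} {y : Fin (n + 1) → K} (hy : SubVar Φ K w y) : SubVarU ∅ Φ K w y :=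
  ⟨hy.ne, fun j hj => absurd hj (Set.notMem_empty j), hy.mem, hy.gen, hy.dim⟩

/-- `Sp_alg` and the closure of the union of the images of the multiplicative group, in the
projective case. -/
theorem proj_eq {ι : Type} {F : ι → MvPolynomial (Fin (n + 1)) k} {s N : ℕ}
    (hF : ∀ e, IsPowSparse ∅ s N (F e)) (hN : n * ((s + 1) * tn (s - 1)) ≤ N)
    (hnt : NoTorusSurface ∅ F) {Φ : κ → MvPolynomial (Fin (n + 1)) k} (hΦ : ∀ e, IsForm (Φ e))
    (hsub : Cone Φ ⊆ Cone F) : SpAlg Φ = SpTor ∅ Φ ∧ SpGm Φ = SpTor ∅ Φ := by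
  have h1 : SpAlg Φ ⊆ SpTor ∅ Φ := by
    rintro x ⟨hx, h⟩
    refine ⟨by rw [cone_empty]; exact hx, fun G hG hT => h G hG ?_⟩
    intro K _ _ w y hw hy hgt
    by_contra hne
    obtain ⟨x', b, hd, hx'⟩ := orbits_through hF hN hnt hΦ (by rwa [cone_empty, cone_empty]) hw
      (subvar_empty hy) (fun h1 => hgt (log_iff w y h1)) hne
    exact hx' (hT x' b hd)
  have h2 : SpTor ∅ Φ ⊆ SpGm Φ := by
    rintro x ⟨hx, h⟩
    rw [cone_empty] at hx
    refine ⟨hx, fun G hG hT => h G hG fun x' b hd => ?_⟩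
    obtain ⟨P, hP, hP1⟩ := gm_of_diag hΦ hd
    have h3 := hT P hP 1 one_ne_zero
    rwa [hP1] at h3
  exact ⟨Set.Subset.antisymm h1 (h2.trans (gm_sub_alg hΦ)),
    Set.Subset.antisymm ((gm_sub_alg hΦ).trans h1) h2⟩

end Pool.Agent.T6.H20.TS
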