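import Mathlib

/-!
Linear algebra: weights and proportional logarithmic derivatives.
-/

set_option autoImplicit false

namespace Pool.Agent.T6.H20.TS

/-- the functional `φ` of the vector `θ`, with denominators cleared -/
theorem int_dual {K : Type} [Field K] [CharZero K] {m : ℕ} (θ : Fin m → K)
    (φ : Module.Dual ℚ K) : ∃ (M : ℤ) (b : Fin m → ℤ), M ≠ 0 ∧ (∀ j, (b j : ℚ) = M * φ (θ j)) ∧
      ∀ r : Fin m → ℤ, ∑ j, (r j : K) * θ j = 0 → ∑ j, r j * b j = 0 := by
  obtain ⟨M, hM⟩ := IsLocalization.exist_integer_multiples_of_finite (nonZeroDivisors ℤ)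
    (fun j => φ (θ j))
  choose b hb using hM
  have hM0 : (M : ℤ) ≠ 0 := nonZeroDivisors.coe_ne_zero M
  have hb' : ∀ j, (b j : ℚ) = ((M : ℤ) : ℚ) * φ (θ j) := by
    intro j
    have h1 := hb j
    rw [Algebra.smul_def] at h1
    exact h1
  refine ⟨M, b, hM0, hb', fun r hr => ?_⟩
  have h1 := congrArg φ hr
  rw [map_sum, map_zero] at h1
  have h2 : ∀ j, φ ((r j : K) * θ j) = (r j : ℚ) * φ (θ j) := by
    intro j
    have h3 : (r j : K) * θ j = (r j : ℚ) • θ j := by
      rw [Algebra.smul_def]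
      simp
    rw [h3, map_smul, smul_eq_mul]
  simp only [h2] at h1
  have h3 : ((∑ j, r j * b j : ℤ) : ℚ) = ((M : ℤ) : ℚ) * ∑ j, (r j : ℚ) * φ (θ j) := by
    push_cast
    rw [Finset.mul_sum]
    exact Finset.sum_congr rfl fun j _ => by rw [hb' j]; ring
  rw [h1, mul_zero] at h3
  exact_mod_cast h3

/-- If the integer weights orthogonal to a set of relations of `θ` are, on `S`, combinations of
constants and of `b0`, then so is `θ`. -/
theorem prop_of_rank {K : Type} [Field K] [CharZero K] {m : ℕ} (θ : Fin m → K) (S : Fin m → Prop)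
    (P : (Fin m → ℤ) → Prop)
    (hP : ∀ b : Fin m → ℤ, (∀ r : Fin m → ℤ, ∑ j, (r j : K) * θ j = 0 → ∑ j, r j * b j = 0) → P b)
    (hrk : ∀ b b', P b → P b' → ∃ p q : ℤ, (p ≠ 0 ∨ q ≠ 0) ∧ ∀ j j', S j → S j' →
      p * b j + q * b' j = p * b j' + q * b' j')
    {b0 : Fin m → ℤ} (hb0 : P b0) {i i' : Fin m} (hi : S i) (hi' : S i') (hne : b0 i ≠ b0 i')
    {j j' : Fin m} (hj : S j) (hj' : S j') :
    (θ j - θ j') * ((b0 i : K) - b0 i') = (θ i - θ i') * ((b0 j : K) - b0 j') := by
  rw [← sub_eq_zero]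
  refine (Module.forall_dual_apply_eq_zero_iff ℚ _).1 fun φ => ?_
  obtain ⟨M, b, hM, hb, hb2⟩ := int_dual θ φ
  obtain ⟨p, q, hpq, h⟩ := hrk b0 b hb0 (hP b hb2)
  have hq : q ≠ 0 := by
    rintro rfl
    have hp : p ≠ 0 := by
      rcases hpq with h1 | h1
      · exact h1
      · exact absurd rfl h1
    have h1 := h i i' hi hi'
    simp only [zero_mul, add_zero] at h1
    exact hne (mul_left_cancel₀ hp h1)
  have h1 := h i i' hi hi'
  have h2 := h j j' hj hj'
  have h3 : (b j - b j') * (b0 i - b0 i') = (b i - b i') * (b0 j - b0 j') := by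
    apply mul_left_cancel₀ hq
    linear_combination (b0 i - b0 i') * h2 - (b0 j - b0 j') * h1
  have h4 : (θ j - θ j') * ((b0 i : K) - b0 i') - (θ i - θ i') * ((b0 j : K) - b0 j') =
      ((b0 i - b0 i' : ℤ) : ℚ) • (θ j - θ j') - ((b0 j - b0 j' : ℤ) : ℚ) • (θ i - θ i') := by
    rw [Algebra.smul_def, Algebra.smul_def]
    push_cast
    simp only [map_sub, map_intCast]
    ring
  have hM' : ((M : ℤ) : ℚ) ≠ 0 := by exact_mod_cast hM
  rw [h4, map_sub, map_smul, map_smul, map_sub, map_sub, smul_eq_mul, smul_eq_mul]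
  apply mul_left_cancel₀ hM'
  have h5 : (((b j - b j') * (b0 i - b0 i') : ℤ) : ℚ) = (((b i - b i') * (b0 j - b0 j') : ℤ) : ℚ) := by
    rw [h3]
  push_cast at h5
  rw [hb, hb, hb, hb] at h5
  push_cast
  linear_combination h5

/-- **Vandermonde.** -/
theorem vander {K A : Type} [Field K] [CharZero K] [DecidableEq A] (s : Finset A) (T : A → K)
    (wt : A → ℤ) (h : ∀ m : ℕ, ∑ a ∈ s, (wt a : K) ^ m * T a = 0) (v : ℤ) :
    ∑ a ∈ s with wt a = v, T a = 0 := by
  classical
  have hpoly : ∀ p : Polynomial K, ∑ a ∈ s, p.eval (wt a : K) * T a = 0 := by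
    intro p
    simp only [Polynomial.eval_eq_sum_range, Finset.sum_mul]
    rw [Finset.sum_comm]
    refine Finset.sum_eq_zero fun m _ => ?_
    simp only [mul_assoc]
    rw [← Finset.mul_sum, h m, mul_zero]
  let W : Finset ℤ := (s.image wt).erase v
  let p : Polynomial K := ∏ u ∈ W, (Polynomial.X - Polynomial.C (u : K))
  have h1 := hpoly p
  have hpv : p.eval (v : K) ≠ 0 := by
    simp only [p, Polynomial.eval_prod, Polynomial.eval_sub, Polynomial.eval_X,
      Polynomial.eval_C]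
    rw [Finset.prod_ne_zero_iff]
    intro u hu
    have h2 : u ≠ v := (Finset.mem_erase.1 hu).1
    rw [sub_ne_zero]
    exact_mod_cast h2.symm
  rw [← Finset.sum_filter_add_sum_filter_not s (fun a => wt a = v)] at h1
  have h2 : ∑ a ∈ s with ¬ wt a = v, p.eval (wt a : K) * T a = 0 := by
    refine Finset.sum_eq_zero fun a ha => ?_
    rw [Finset.mem_filter] at ha
    have h3 : p.eval (wt a : K) = 0 := by
      simp only [p, Polynomial.eval_prod, Polynomial.eval_sub, Polynomial.eval_X,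
        Polynomial.eval_C]
      refine Finset.prod_eq_zero (i := wt a) ?_ (sub_self _)
      exact Finset.mem_erase.2 ⟨ha.2, Finset.mem_image_of_mem _ ha.1⟩
    rw [h3, zero_mul]
  rw [h2, add_zero] at h1
  have h3 : ∑ a ∈ s with wt a = v, p.eval (wt a : K) * T a =
      p.eval (v : K) * ∑ a ∈ s with wt a = v, T a := by
    rw [Finset.mul_sum]
    refine Finset.sum_congr rfl fun a ha => ?_
    rw [(Finset.mem_filter.1 ha).2]
  rw [h3] at h1
  exact (mul_eq_zero.1 h1).resolve_left hpv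

end Pool.Agent.T6.H20.TS
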