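import Pool.Agent.W602.GT.PsFin
import Pool.Agent.T6.H20.TS.Lin

/-!
Closed subvarieties of varieties given by few monomials with large exponents which contain no
two-dimensional orbits of tori: those which are not of log general type are stable under a
one-parameter group.
-/

set_option autoImplicit false

open FF Pool.Agent.W603.LV MvPolynomial Pool.Agent.W602.GT

namespace Pool.Agent.T6.H20.TS

/-- If `X = {F = 0, x_j ≠ 0 for j in U}` contains all the points `(t ^ (b j) * t' ^ (b' j) * x_j)`,
then these points form an orbit of dimension at most one: a nontrivial combination of the weights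
`b` and `b'` is constant on the set of the nonzero coordinates of `x`. -/
def NoTorusSurface {k : Type} [Field k] {n : ℕ} {ι : Type} (U : Set (Fin (n + 1)))
    (F : ι → MvPolynomial (Fin (n + 1)) k) : Prop :=
  ∀ (x : Fin (n + 1) → k) (b b' : Fin (n + 1) → ℤ),
    (∀ t t' : k, t ≠ 0 → t' ≠ 0 → (fun j => t ^ b j * t' ^ b' j * x j) ∈ ConeU U F) →
    ∃ p q : ℤ, (p ≠ 0 ∨ q ≠ 0) ∧ ∀ j j', x j ≠ 0 → x j' ≠ 0 →
      p * b j + q * b' j = p * b j' + q * b' j'

variable {k K : Type} [Field k] [Field K] [Algebra k K] {n : ℕ}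

/-- the form with rescaled variables -/
noncomputable def resc (c : Fin (n + 1) → k) (G : MvPolynomial (Fin (n + 1)) k) :
    MvPolynomial (Fin (n + 1)) k := aeval (fun j => C (c j) * X j) G

theorem val_resc (c : Fin (n + 1) → k) (G : MvPolynomial (Fin (n + 1)) k) (y : Fin (n + 1) → K) :
    val y (resc c G) = val (fun j => algebraMap k K (c j) * y j) G := by
  unfold val resc
  have h : (aeval y : MvPolynomial (Fin (n + 1)) k →ₐ[k] K).comp
      (aeval (fun j => C (c j) * X j) : MvPolynomial (Fin (n + 1)) k →ₐ[k] _) =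
      aeval (fun j => algebraMap k K (c j) * y j) := by
    apply MvPolynomial.algHom_ext
    intro j
    simp only [AlgHom.comp_apply, aeval_X, map_mul]
    rw [← MvPolynomial.algebraMap_eq, AlgHom.commutes]
  exact congrArg (fun f => f G) (congrArg DFunLike.coe h)

/-- a point with the same nonzero coordinates as the generic point, at which the closed conditions
at the generic point hold -/
theorem special_point [IsAlgClosed k] (y : Fin (n + 1) → K) {G : MvPolynomial (Fin (n + 1)) k}
    (hG : val y G ≠ 0) : ∃ x : Fin (n + 1) → k, (∀ j, x j ≠ 0 ↔ y j ≠ 0) ∧ val x G ≠ 0 ∧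
      ∀ H : MvPolynomial (Fin (n + 1)) k, val y H = 0 → val x H = 0 := by
  classical
  let H : MvPolynomial (Fin (n + 1)) k := G *
    ∏ j ∈ Finset.univ.filter (fun j => y j ≠ 0), MvPolynomial.X j
  have hH : MvPolynomial.aeval y H ≠ 0 := by
    simp only [H, map_mul, map_prod, MvPolynomial.aeval_X]
    refine mul_ne_zero hG ?_
    exact Finset.prod_ne_zero_iff.2 fun j hj => (Finset.mem_filter.1 hj).2
  obtain ⟨x, hx, hx0⟩ := specialise y H hH
  simp only [H, map_mul, map_prod, MvPolynomial.aeval_X] at hx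
  refine ⟨x, fun j => ⟨fun hj hyj => hj ?_, fun hyj => ?_⟩, left_ne_zero_of_mul hx, hx0⟩
  · have h1 := hx0 (MvPolynomial.X j) (by rw [MvPolynomial.aeval_X]; exact hyj)
    rwa [MvPolynomial.aeval_X] at h1
  · exact Finset.prod_ne_zero_iff.1 (right_ne_zero_of_mul hx) j
      (Finset.mem_filter.2 ⟨Finset.mem_univ _, hyj⟩)

/-- The weighted terms of a form which vanishes at the generic point, if the logarithmic derivatives
of the coordinates are combinations of a constant and of the weights. -/
theorem weighted_terms [CharZero K] (D : Derivation k K K) {y : Fin (n + 1) → K}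
    {b : Fin (n + 1) → ℤ} {c β : K} (hβ : β ≠ 0)
    (hD : ∀ j, y j ≠ 0 → D (y j) / y j = c + β * b j) {G : MvPolynomial (Fin (n + 1)) k} {d : ℕ}
    (hG : G.IsHomogeneous d) (hy : val y G = 0) (v : ℤ) : val y (wc b v G) = 0 := by
  classical
  rw [val_wc]
  refine vander G.support (fun α => algebraMap k K (G.coeff α) * ∏ j, y j ^ α j)
    (fun α => ∑ j, (α j : ℤ) * b j) ?_ v
  intro m
  induction m with
  | zero =>
    simp only [pow_zero, one_mul]
    rw [← val_eq_sum]
    exact hy
  | succ m ih =>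
    have h1 := congrArg D ih
    rw [map_zero, map_sum] at h1
    have h2 : ∀ α ∈ G.support, D (((∑ j, (α j : ℤ) * b j : ℤ) : K) ^ m *
        (algebraMap k K (G.coeff α) * ∏ j, y j ^ α j)) =
        (d * c) * (((∑ j, (α j : ℤ) * b j : ℤ) : K) ^ m *
          (algebraMap k K (G.coeff α) * ∏ j, y j ^ α j)) +
        β * (((∑ j, (α j : ℤ) * b j : ℤ) : K) ^ (m + 1) *
          (algebraMap k K (G.coeff α) * ∏ j, y j ^ α j)) := by
      intro α hα
      have e1 : (((∑ j, (α j : ℤ) * b j : ℤ) : K) ^ m) =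
          algebraMap k K (((∑ j, (α j : ℤ) * b j : ℤ) : k) ^ m) := by
        rw [map_pow, map_intCast]
      by_cases hz : algebraMap k K (G.coeff α) * ∏ j, y j ^ α j = 0
      · rw [hz]
        simp only [mul_zero, map_zero, add_zero]
      · rw [e1, D.leibniz, D.map_algebraMap, smul_zero, add_zero, smul_eq_mul, der_mon D hz, ← e1]
        have h3 : ∑ j, (α j : K) * (D (y j) / y j) = d * c +
            β * ((∑ j, (α j : ℤ) * b j : ℤ) : K) := by
          have h4 : ∀ j, (α j : K) * (D (y j) / y j) = (α j : K) * c + β * ((α j : K) * b j) := by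
            intro j
            by_cases hj : y j = 0
            · have h5 : α j = 0 := by
                by_contra h6
                apply hz
                rw [Finset.prod_eq_zero (Finset.mem_univ j) (by rw [hj, zero_pow h6]), mul_zero]
              rw [h5]
              simp
            · rw [hD j hj]
              ring
          simp only [h4]
          rw [Finset.sum_add_distrib, ← Finset.sum_mul, ← Finset.mul_sum]
          have h5 : (∑ j, (α j : K)) = d := by exact_mod_cast sum_exp hG hα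
          rw [h5]
          push_cast
          ring
        rw [h3]
        ring
    rw [Finset.sum_congr rfl h2, Finset.sum_add_distrib, ← Finset.mul_sum, ← Finset.mul_sum, ih,
      mul_zero, zero_add] at h1
    exact (mul_eq_zero.1 h1).resolve_left hβ

/-- **Stable subvarieties.** A closed subvariety of a variety given by few monomials with large
exponents, without two-dimensional orbits of tori, is of log general type or stable under a
nontrivial one-parameter group. -/
theorem stable [IsAlgClosed k] [CharZero k] {ι : Type} {U : Set (Fin (n + 1))}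
    {F : ι → MvPolynomial (Fin (n + 1)) k} {s N : ℕ} (hF : ∀ e, IsPowSparse U s N (F e))
    (hN : n * ((s + 1) * tn (s - 1)) ≤ N) (hnt : NoTorusSurface U F)
    {w : ℕ} (hw : 0 < w) (htr : Algebra.trdeg k K = w) {y : Fin (n + 1) → K} (hy : y ≠ 0)
    (hgen : Algebra.IsAlgebraic (coords k y) K) (hyF : ∀ e, val y (F e) = 0)
    (hyU : ∀ j ∈ U, y j ≠ 0) (hgt : ¬ LogGeneralType k K w (OffU U y)) :
    ∃ (b : Fin (n + 1) → ℤ) (i i' : Fin (n + 1)), y i ≠ 0 ∧ y i' ≠ 0 ∧ b i ≠ b i' ∧
      ∀ G : MvPolynomial (Fin (n + 1)) k, IsForm G → val y G = 0 → ∀ v, val y (wc b v G) = 0 := by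
  classical
  have hwn := dim_le hy hgen htr
  have hK : CharZero K := charZero_of_injective_algebraMap (algebraMap k K).injective
  let T : ∀ e, (Fin (n + 1) →₀ ℕ) → K := fun e α => algebraMap k K ((F e).coeff α) * ∏ j, y j ^ α j
  let J : ι → Type := fun e => {α : (F e).support // T e α ≠ 0}
  let g : ∀ e, J e → K := fun e α => T e α.1
  have hg : ∀ e j, g e j ≠ 0 := fun e j => j.2
  have hsub : ∀ (e : ι) (h : (Fin (n + 1) →₀ ℕ) → K), ∑ α ∈ (F e).support, h α * T e α =
      ∑ α : J e, h α.1 * g e α := by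
    intro e h
    rw [← Finset.sum_coe_sort (F e).support (fun α => h α * T e α)]
    rw [← Finset.sum_subtype (Finset.univ.filter fun α : (F e).support => T e α ≠ 0) (by simp)
      (fun α : (F e).support => h α * T e α), Finset.sum_filter_of_ne]
    intro α _ hα h0
    exact hα (by rw [h0, mul_zero])
  have hsum : ∀ e, ∑ j, g e j = 0 := by
    intro e
    have h1 := hsub e (fun _ => 1)
    simp only [one_mul] at h1
    rw [← h1, ← val_eq_sum]
    exact hyF e
  have hcard : ∀ e, Fintype.card (J e) ≤ s := fun e =>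
    (Fintype.card_subtype_le _).trans (by rw [Fintype.card_coe]; exact (hF e).2.1)
  have hjump : ∀ P : Place k K, ¬ OffU U y P → ∀ e (α β : J e),
      P.ord (g e α) = P.ord (g e β) ∨
      ((w * ((s + 1) * tn (s - 1)) : ℕ) : ℤ) ≤ |P.ord (g e α) - P.ord (g e β)| := by
    intro P hP e α β
    obtain ⟨μ, hμ⟩ : ∃ μ : ℤ, ∀ j ∈ U, P.ord (y j) = μ := by
      by_cases hU : ∃ j0, j0 ∈ U
      · obtain ⟨j0, hj0⟩ := hU
        refine ⟨P.ord (y j0), fun j hj => ?_⟩
        unfold OffU at hP
        push Not at hP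
        exact le_antisymm (hP j hj j0 (hyU j0 hj0)) (hP j0 hj0 j (hyU j hj))
      · exact ⟨0, fun j hj => absurd ⟨j, hj⟩ hU⟩
    obtain ⟨⟨d, hd⟩, -, N', hN', hdvd⟩ := hF e
    have hα := sum_exp hd α.1.2
    have hβ := sum_exp hd β.1.2
    have h1 : P.ord (g e α) - P.ord (g e β) =
        ∑ j, (((α.1 : Fin (n + 1) →₀ ℕ) j : ℤ) - ((β.1 : Fin (n + 1) →₀ ℕ) j : ℤ)) *
          (P.ord (y j) - μ) := by
      change P.ord (T e α.1) - P.ord (T e β.1) = _
      rw [ord_mon P α.2, ord_mon P β.2, ← Finset.sum_sub_distrib]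
      have h2 : ∑ j, (((α.1 : Fin (n + 1) →₀ ℕ) j : ℤ) - ((β.1 : Fin (n + 1) →₀ ℕ) j : ℤ)) = 0 := by
        rw [Finset.sum_sub_distrib]
        have h3 : (∑ j, ((α.1 : Fin (n + 1) →₀ ℕ) j : ℤ)) = d := by exact_mod_cast hα
        have h4 : (∑ j, ((β.1 : Fin (n + 1) →₀ ℕ) j : ℤ)) = d := by exact_mod_cast hβ
        rw [h3, h4, sub_self]
      have h5 : ∑ j, (((α.1 : Fin (n + 1) →₀ ℕ) j : ℤ) - ((β.1 : Fin (n + 1) →₀ ℕ) j : ℤ)) * μ = 0 := by
        rw [← Finset.sum_mul, h2, zero_mul]
      rw [← sub_zero (∑ j, (((α.1 : Fin (n + 1) →₀ ℕ) j : ℤ) * P.ord (y j) - _)), ← h5,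
        ← Finset.sum_sub_distrib]
      exact Finset.sum_congr rfl fun j _ => by ring
    have h2 : (N' : ℤ) ∣ P.ord (g e α) - P.ord (g e β) := by
      rw [h1]
      refine Finset.dvd_sum fun j _ => ?_
      by_cases hj : j ∈ U
      · rw [hμ j hj, sub_self, mul_zero]
        exact dvd_zero _
      · refine Dvd.dvd.mul_right (dvd_sub ?_ ?_) _
        · exact_mod_cast hdvd _ α.1.2 j hj
        · exact_mod_cast hdvd _ β.1.2 j hj
    by_cases h : P.ord (g e α) = P.ord (g e β)
    · exact Or.inl h
    · right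
      have h3 : w * ((s + 1) * tn (s - 1)) ≤ N' :=
        ((Nat.mul_le_mul_right _ hwn).trans hN).trans hN'
      have h4 : ((w * ((s + 1) * tn (s - 1)) : ℕ) : ℤ) ≤ N' := by exact_mod_cast h3
      refine h4.trans ?_
      exact Int.le_of_dvd (abs_pos.2 (sub_ne_zero.2 h)) ((dvd_abs _ _).2 h2)
  rcases system hw htr g hg hsum hcard (OffU U y) hjump with h | ⟨D, hD, hR⟩
  · exact absurd h hgt
  obtain ⟨i, i', hii⟩ := moves hgen hD
  have hyi : y i ≠ 0 := by
    intro h0
    apply hii
    rw [h0, map_zero]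
    ring
  have hyi' : y i' ≠ 0 := by
    intro h0
    apply hii
    rw [h0, map_zero]
    ring
  let θ : Fin (n + 1) → K := fun j => D (y j) / y j
  have hlam : θ i ≠ θ i' := by
    intro h0
    apply hii
    simp only [θ] at h0
    field_simp at h0
    linear_combination -h0
  -- the admissible weights
  let P : (Fin (n + 1) → ℤ) → Prop := fun b => ∀ r : Fin (n + 1) → ℤ,
    ∑ j, (r j : K) * θ j = 0 → ∑ j, r j * b j = 0
  obtain ⟨b0, hb0, hbP⟩ := int_weights θ hlam
  have hrk : ∀ b b', P b → P b' → ∃ p q : ℤ, (p ≠ 0 ∨ q ≠ 0) ∧ ∀ j j', y j ≠ 0 → y j' ≠ 0 →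
      p * b j + q * b' j = p * b j' + q * b' j' := by
    intro b b' hb hb'
    have hmem : ∀ t t' : k, t ≠ 0 → t' ≠ 0 → ∀ e,
        val (fun j => algebraMap k K (t ^ b j * t' ^ b' j) * y j) (F e) = 0 := by
      intro t t' ht ht' e
      obtain ⟨R, hRe, hRD, hRs⟩ := hR e
      have h1 : val (fun j => algebraMap k K (t ^ b j * t' ^ b' j) * y j) (F e) =
          ∑ α ∈ (F e).support, algebraMap k K (t ^ (∑ j, (α j : ℤ) * b j) *
            t' ^ (∑ j, (α j : ℤ) * b' j)) * T e α := by
        rw [val_eq_sum]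
        refine Finset.sum_congr rfl fun α _ => ?_
        have h2 : ∀ (u : k) (_ : u ≠ 0) (c : Fin (n + 1) → ℤ),
            u ^ (∑ j, (α j : ℤ) * c j) = ∏ j, (u ^ c j) ^ α j := by
          intro u hu c
          have h3 : ∀ s : Finset (Fin (n + 1)), u ^ (∑ j ∈ s, (α j : ℤ) * c j) =
              ∏ j ∈ s, (u ^ c j) ^ α j := by
            intro s
            induction s using Finset.induction_on with
            | empty => simp
            | insert a s ha ih =>
              rw [Finset.sum_insert ha, Finset.prod_insert ha, zpow_add₀ hu, ih,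
                mul_comm (α a : ℤ), zpow_mul, zpow_natCast]
          exact h3 _
        rw [h2 t ht b, h2 t' ht' b']
        simp only [T, mul_pow, Finset.prod_mul_distrib, map_mul, map_prod, map_pow]
        ring
      rw [h1, hsub e (fun α => algebraMap k K (t ^ (∑ j, (α j : ℤ) * b j) *
            t' ^ (∑ j, (α j : ℤ) * b' j)))]
      refine weighted_sum R hRe (g e) _ ?_ hRs
      intro α β hαβ
      have h3 := hRD α β hαβ
      change D (T e α.1) * T e β.1 = T e α.1 * D (T e β.1) at h3
      rw [der_mon D α.2, der_mon D β.2] at h3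
      have h4 : ∑ j, ((α.1 : Fin (n + 1) →₀ ℕ) j : K) * θ j =
          ∑ j, ((β.1 : Fin (n + 1) →₀ ℕ) j : K) * θ j := by
        apply mul_left_cancel₀ (mul_ne_zero α.2 β.2)
        linear_combination h3
      have h5 : ∀ c, P c → ∑ j, (((α.1 : Fin (n + 1) →₀ ℕ) j : ℤ)) * c j =
          ∑ j, (((β.1 : Fin (n + 1) →₀ ℕ) j : ℤ)) * c j := by
        intro c hc
        have h6 := hc (fun j => ((α.1 : Fin (n + 1) →₀ ℕ) j : ℤ) -
            ((β.1 : Fin (n + 1) →₀ ℕ) j : ℤ)) (by
          push_cast
          simp only [sub_mul, Finset.sum_sub_distrib]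
          rw [h4, sub_self])
        simp only [sub_mul, Finset.sum_sub_distrib] at h6
        exact sub_eq_zero.1 h6
      change algebraMap k K _ = algebraMap k K _
      rw [h5 b hb, h5 b' hb']
    obtain ⟨x, hxy, -, hx⟩ := special_point y (G := (1 : MvPolynomial (Fin (n + 1)) k))
      (by unfold val; rw [map_one]; exact one_ne_zero)
    have hmx : ∀ t t' : k, t ≠ 0 → t' ≠ 0 → (fun j => t ^ b j * t' ^ b' j * x j) ∈ ConeU U F := by
      intro t t' ht ht'
      refine ⟨?_, ?_, ?_⟩
      · intro h0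
        have h1 := congrFun h0 i
        exact mul_ne_zero (mul_ne_zero (zpow_ne_zero _ ht) (zpow_ne_zero _ ht')) ((hxy i).2 hyi) h1
      · exact fun j hj => mul_ne_zero (mul_ne_zero (zpow_ne_zero _ ht) (zpow_ne_zero _ ht'))
          ((hxy j).2 (hyU j hj))
      · intro e
        have h1 := hx (resc (fun j => t ^ b j * t' ^ b' j) (F e)) (by
          rw [val_resc]
          exact hmem t t' ht ht' e)
        rw [val_resc] at h1
        exact h1
    obtain ⟨p, q, hpq, h⟩ := hnt x b b' hmx
    exact ⟨p, q, hpq, fun j j' hj hj' => h j j' ((hxy j).2 hj) ((hxy j').2 hj')⟩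
  have hprop := fun {j j'} hj hj' => prop_of_rank θ (fun j => y j ≠ 0) P (fun b hb => hb) hrk hbP
    hyi hyi' hb0 (j := j) (j' := j') hj hj'
  have hbne : ((b0 i : K) - b0 i') ≠ 0 := by
    rw [sub_ne_zero]
    exact_mod_cast hb0
  refine ⟨b0, i, i', hyi, hyi', hb0, fun G hG hG0 v => ?_⟩
  obtain ⟨d, hd⟩ := hG
  refine weighted_terms D (c := θ i' - (θ i - θ i') / ((b0 i : K) - b0 i') * b0 i')
    (β := (θ i - θ i') / ((b0 i : K) - b0 i')) (div_ne_zero (sub_ne_zero.2 hlam) hbne)
    (fun j hj => ?_) hd hG0 v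
  have h1 := hprop hj hyi'
  have h2 : D (y j) / y j = θ j := rfl
  rw [h2]
  field_simp
  linear_combination h1

end Pool.Agent.T6.H20.TS
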